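import Pool.Agent.Helper834.Conseq

/-!
The cusp inequality (equivalently the Bogomolov-Miyaoka-Yau inequality) for the branch curves of
symplectic coverings of the plane of degree four and five without negative nodes.
-/

namespace Pool.Agent.Results.MP_bcbe9c_gt.FourFiveSheets

open Pool.Agent.Helper834

theorem arith {d κ ν : ℕ} (hd : 10 ≤ d ∧ d ≤ 22) (he : Even d) (h3 : 3 ∣ κ)
    (h : 4 * (κ : ℤ) + 2 * ν ≤
      1 * d * (d - 1) + 2 * 1 * ((d / 6 : ℕ) : ℤ) * (((d / 6 : ℕ) : ℤ) + 1) -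
        2 * ((d / 6 : ℕ) : ℤ) +
        2 * ((d : ℤ) - 1 - 2 * ((d / 6 : ℕ) : ℤ)) * ((1 * d / 6 : ℕ) : ℤ))
    (hρ : (0 : ℤ) ≤ d * (d - 1) - 2 * ν - 3 * κ)
    (hc : (0 : ℤ) ≤ (d - 1) * (d - 2) - 2 * κ - 2 * ν - 2 - 9 * d + 72) :
    16 * (κ : ℤ) + 10 * ν ≤ 5 * d * d - 6 * d := by
  have hcases : d ∈ ({10, 12, 14, 16, 18, 20, 22} : Finset ℕ) := by
    obtain ⟨m, hm⟩ := he
    simp only [Finset.mem_insert, Finset.mem_singleton]
    omega
  simp only [Finset.mem_insert, Finset.mem_singleton] at hcases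
  rcases hcases with rfl | rfl | rfl | rfl | rfl | rfl | rfl <;> norm_num at h hc hρ ⊢ <;>
    first
    | omega
    | (rcases Nat.lt_or_ge κ 140 with h5 | h5 <;> omega)

/-- `c₂` of a covering of `ℂℙ²` of degree `N`. -/
def c2 {N d : ℕ} (X : Covering N d 1) : ℚ := 2 * (X.genus - 1) + 3 * N - X.κ

theorem four {d : ℕ} (hd : 10 ≤ d ∧ d ≤ 22) (X : Covering 4 d 1) (hm : X.nodesNeg = 0)
    (hc : 0 ≤ X.c1sq ∨ 0 ≤ c2 X) : X.c1sq ≤ 3 * c2 X := by
  rcases lt_or_ge X.c1sq 0 with hlt | hc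
  · rcases hc with hc | hc
    · linarith
    · linarith
  have h := X.ineq (by norm_num) le_rfl
  have hdeg := X.degree_eq
  have ht : (0 : ℤ) ≤ count .tangency X.F := Int.natCast_nonneg _
  rw [hm] at h hdeg
  simp only [Nat.cast_zero, mul_zero, add_zero, Nat.cast_one, sub_zero, one_mul] at h hdeg
  simp only [Covering.c1sq, c2, Covering.genus, Covering.ν, hm] at hc ⊢
  have h1d : ((d - 1 : ℕ) : ℤ) = (d : ℤ) - 1 := by
    have := X.two_le (by norm_num)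
    omega
  rw [h1d] at hdeg
  have hc' : (0 : ℤ) ≤ ((d : ℤ) - 1) * (d - 2) - 2 * X.κ - 2 * X.nodesPos - 2 - 9 * d + 72 := by
    have : (0 : ℚ) ≤ ((d : ℚ) - 1) * (d - 2) - 2 * X.κ - 2 * X.nodesPos - 2 - 9 * d + 72 := by
      push_cast at hc
      linarith
    exact_mod_cast this
  have goal := arith hd X.even_d X.three_dvd_four (by simpa using h) (by linarith) hc'
  have goal' : 16 * (X.κ : ℚ) + 10 * X.nodesPos ≤ 5 * d * d - 6 * d := by exact_mod_cast goal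
  push_cast
  linarith

theorem five (X : Covering 5 16 1) (hm : X.nodesNeg = 0)
    (hc : 0 ≤ X.c1sq ∨ 0 ≤ c2 X) : X.c1sq ≤ 3 * c2 X := by
  rcases lt_or_ge X.c1sq 0 with hlt | hc
  · rcases hc with hc | hc
    · linarith
    · linarith
  have h := X.ineq (by norm_num) le_rfl
  rw [hm] at h
  norm_num at h
  have h' : (4 : ℚ) * X.κ + 2 * X.nodesPos ≤ 292 := by exact_mod_cast h
  simp only [Covering.c1sq, c2, Covering.genus, Covering.ν, hm] at hc ⊢
  push_cast at hc ⊢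
  linarith

/-- A symplectic covering of the plane of degree `N = 4` with branch curve of degree
`10 ≤ d ≤ 22`, or of degree `N = 5` with branch curve of degree `16`, without negative nodes,
satisfies `c₁² ≤ 3 c₂` if `c₁² ≥ 0` or `c₂ ≥ 0`. -/
theorem result {N d : ℕ} (hNd : (N = 4 ∧ 10 ≤ d ∧ d ≤ 22) ∨ (N = 5 ∧ d = 16))
    (X : Covering N d 1) (hm : X.nodesNeg = 0) (hc : 0 ≤ X.c1sq ∨ 0 ≤ c2 X) :
    X.c1sq ≤ 3 * c2 X := by
  rcases hNd with ⟨rfl, h1, h2⟩ | ⟨rfl, rfl⟩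
  · exact four ⟨h1, h2⟩ X hm hc
  · exact five X hm hc

end Pool.Agent.Results.MP_bcbe9c_gt.FourFiveSheets
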